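import Pool.Agent.Helper36.Nm.NPrimeB

/-!
Packet NPRIME of MP_f619a5_ag: the norm of a Galois extension of prime degree of a complete
discretely valued field with algebraically closed residue field is surjective.
-/

open IsLocalRing Finset

namespace Pool.Agent.Helper36.Nm

open Pool.Agent.Helper40.Nm

section core

variable {R S G : Type} [CommRing R] [IsDomain R] [IsDiscreteValuationRing R]
  [CommRing S] [IsDomain S] [IsDiscreteValuationRing S] [Algebra R S] [Group G] [Fintype G]

variable (D : Dat R S G) [IsAlgClosed (ResidueField R)]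

lemma isUnit_of_sub_one {A : Type} [CommRing A] [IsLocalRing A] {x : A}
    (h : x - 1 ∈ maximalIdeal A) : IsUnit x := by
  by_contra hx
  have h1 : x ∈ maximalIdeal A := (mem_maximalIdeal _).2 hx
  have h2 : (1 : A) ∈ maximalIdeal A := by
    have := Ideal.sub_mem _ h1 h
    simpa using this
  exact (Ideal.ne_top_iff_one _).1 (Ideal.IsMaximal.ne_top inferInstance) h2

lemma next (a : R) (ha : a - 1 ∈ maximalIdeal R) (n : ℕ) (y : S)
    (hy : D.N y - a ∈ maximalIdeal R ^ (n + 1)) :
    ∃ y' : S, y' - y ∈ maximalIdeal S ^ (n + 1) ∧ D.N y' - a ∈ maximalIdeal R ^ (n + 2) := by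
  obtain ⟨π, hπ⟩ := IsDiscreteValuationRing.exists_irreducible R
  have h1 : IsUnit (D.N y) := by
    apply isUnit_of_sub_one
    have h2 : D.N y - a ∈ maximalIdeal R := by
      have := Ideal.pow_le_pow_right (I := maximalIdeal R) (show 1 ≤ n + 1 by omega) hy
      simpa using this
    have := Ideal.add_mem _ h2 ha
    simpa using this
  obtain ⟨u, hu⟩ := h1
  have hy' := (mem_pow_iff hπ _ _).1 hy
  obtain ⟨d, hd⟩ := hy'
  obtain ⟨x, hx, hx'⟩ := step D hπ (n + 1) (by omega) (-(d * (u⁻¹ : Rˣ)))
  refine ⟨y * (1 + x), ?_, ?_⟩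
  · have : y * (1 + x) - y = y * x := by ring
    rw [this]
    exact Ideal.mul_mem_left _ _ hx
  · have h3 : D.N (y * (1 + x)) - a =
        D.N y * (D.N (1 + x) - (1 + -(d * ((u⁻¹ : Rˣ) : R)) * π ^ (n + 1))) := by
      rw [map_mul]
      have h4 : D.N y * ((u⁻¹ : Rˣ) : R) = 1 := by rw [← hu]; exact Units.mul_inv u
      linear_combination hd - d * π ^ (n + 1) * h4
    rw [h3]
    exact Ideal.mul_mem_left _ _ hx'

lemma prod_sub_mem {ι A : Type} [CommRing A] (I : Ideal A) (s : Finset ι) (f g : ι → A)
    (h : ∀ i ∈ s, f i - g i ∈ I) : ∏ i ∈ s, f i - ∏ i ∈ s, g i ∈ I := by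
  rw [← Ideal.Quotient.eq, map_prod, map_prod]
  exact Finset.prod_congr rfl (fun i hi => (Ideal.Quotient.eq).2 (h i hi))

lemma surj_one [IsAdicComplete (maximalIdeal R) R] [IsAdicComplete (maximalIdeal S) S]
    (a : R) (ha : a - 1 ∈ maximalIdeal R) : ∃ s : S, D.N s = a := by
  have h0 : D.N 1 - a ∈ maximalIdeal R ^ (0 + 1) := by
    rw [map_one, zero_add, pow_one]
    have := Ideal.neg_mem_iff _ |>.2 ha
    simpa using this
  choose f hf1 hf2 using next D a ha
  let g : (n : ℕ) → {y : S // D.N y - a ∈ maximalIdeal R ^ (n + 1)} := fun n =>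
    Nat.rec (motive := fun n => {y : S // D.N y - a ∈ maximalIdeal R ^ (n + 1)}) ⟨1, h0⟩
      (fun n y => ⟨f n y.1 y.2, hf2 n y.1 y.2⟩) n
  have hg : ∀ n, (g (n + 1)).1 - (g n).1 ∈ maximalIdeal S ^ (n + 1) := fun n => hf1 n _ _
  have hg2 : ∀ m k, (g (m + k)).1 - (g m).1 ∈ maximalIdeal S ^ m := by
    intro m k
    induction k with
    | zero => simp
    | succ k ih =>
      have h1 := hg (m + k)
      have h2 : (g (m + k + 1)).1 - (g (m + k)).1 ∈ maximalIdeal S ^ m :=
        Ideal.pow_le_pow_right (by omega) h1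
      have := Ideal.add_mem _ h2 ih
      rw [sub_add_sub_cancel] at this
      exact this
  obtain ⟨L, hL⟩ := IsPrecomplete.prec (I := maximalIdeal S) (M := S) inferInstance
    (f := fun n => (g n).1) (by
      intro m n hmn
      obtain ⟨k, rfl⟩ := Nat.exists_eq_add_of_le hmn
      rw [SModEq.sub_mem, smul_eq_mul, Ideal.mul_top]
      have := Ideal.neg_mem_iff _ |>.2 (hg2 m k)
      rwa [neg_sub] at this)
  refine ⟨L, ?_⟩
  have h3 : ∀ j, D.N L - a ∈ maximalIdeal R ^ j := by
    intro j
    have h4 := hL (D.p * j)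
    rw [SModEq.sub_mem, smul_eq_mul, Ideal.mul_top] at h4
    have h5 : D.N (g (D.p * j)).1 - D.N L ∈ maximalIdeal R ^ j := by
      apply comap_pow D.toDat0
      rw [map_sub, D.hN, D.hN]
      refine prod_sub_mem _ _ _ _ (fun γ _ => ?_)
      rw [← map_sub]
      exact map_mem_pow _ _ h4
    have h6 : D.N (g (D.p * j)).1 - a ∈ maximalIdeal R ^ j := by
      refine Ideal.pow_le_pow_right ?_ (g (D.p * j)).2
      have := D.hp.pos
      nlinarith
    have := Ideal.sub_mem _ h6 h5
    rw [sub_sub_sub_cancel_left] at this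
    exact this
  have h7 : D.N L - a = 0 := by
    refine IsHausdorff.haus (I := maximalIdeal R) (M := R) inferInstance _ (fun n => ?_)
    rw [SModEq.sub_mem, smul_eq_mul, Ideal.mul_top, sub_zero]
    exact h3 n
  exact sub_eq_zero.1 h7

end core

section assembly

variable {R M S E : Type} [CommRing R] [IsDomain R] [IsDiscreteValuationRing R]
  [Field M] [Algebra R M] [IsFractionRing R M] [Field E] [Algebra M E] [Algebra R E]
  [IsScalarTower R M E] [FiniteDimensional M E] [IsGalois M E]
  [CommRing S] [IsDomain S] [IsDiscreteValuationRing S] [Algebra R S] [Algebra S E]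
  [IsScalarTower R S E] [IsIntegralClosure S R E]

lemma gal_norm [Module.Finite R S] [Module.IsTorsionFree R S] (s : S) :
    algebraMap R S (Algebra.intNorm R S s) = ∏ γ : (E ≃ₐ[M] E), galRestrict R M E S γ s := by
  apply IsIntegralClosure.algebraMap_injective S R E
  rw [← IsScalarTower.algebraMap_apply, IsScalarTower.algebraMap_apply R M E,
    Algebra.algebraMap_intNorm (K := M) (L := E), Algebra.norm_eq_prod_automorphisms, map_prod]
  exact Finset.prod_congr rfl (fun γ _ => (algebraMap_galRestrict_apply R γ s).symm)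

lemma gal_trace [Module.Finite R S] [Module.IsTorsionFree R S] (s : S) :
    algebraMap R S (Algebra.intTrace R S s) = ∑ γ : (E ≃ₐ[M] E), galRestrict R M E S γ s := by
  apply IsIntegralClosure.algebraMap_injective S R E
  rw [← IsScalarTower.algebraMap_apply, IsScalarTower.algebraMap_apply R M E,
    Algebra.algebraMap_intTrace (K := M) (L := E), trace_eq_sum_automorphisms, map_sum]
  exact Finset.sum_congr rfl (fun γ _ => (algebraMap_galRestrict_apply R γ s).symm)

end assembly

/-- Packet NPRIME. -/
theorem nprime : TRC → EXT → DIVU → NPRIME := by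
  intro hTRC hEXT hDIVU R M E _ _ _ _ _ _ _ _ _ _ _ _ hl
  let _ : Algebra R E := ((algebraMap M E).comp (algebraMap R M)).toAlgebra
  have _ : IsScalarTower R M E := IsScalarTower.of_algebraMap_eq (fun _ => rfl)
  have hExt := hEXT R M (integralClosure R E) E
  obtain ⟨hfr, hfin, hfree, hdvr, hcomp, hac, hloc, hsub, hmap⟩ := hExt
  set S := integralClosure R E with hS
  set l := Module.finrank M E with hldef
  have hinj : Function.Injective (algebraMap R S) := by
    have h1 : Function.Injective (algebraMap R E) := by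
      rw [IsScalarTower.algebraMap_eq R M E]
      exact (algebraMap M E).injective.comp (IsFractionRing.injective R M)
    intro x y hxy
    apply h1
    rw [IsScalarTower.algebraMap_apply R S E, IsScalarTower.algebraMap_apply R S E, hxy]
  have htf : Module.IsTorsionFree R S := by
    have := (faithfulSMul_iff_algebraMap_injective R S).2 hinj
    infer_instance
  have hnorm : ∀ s : S, algebraMap R M (Algebra.intNorm R S s) =
      Algebra.norm M (algebraMap S E s) := fun s => Algebra.algebraMap_intNorm (K := M) (L := E) s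
  have hG : Fintype.card (E ≃ₐ[M] E) = l := by
    rw [← Nat.card_eq_fintype_card, IsGalois.card_aut_eq_finrank]
  let D0 : Dat0 R S (E ≃ₐ[M] E) :=
    { σ := (galRestrict R M E S).toMonoidHom
      N := Algebra.intNorm R S
      hN := fun s => gal_norm s
      hinj := hinj
      p := l
      hp := hl
      hG := hG
      hmap := hmap }
  -- reduction to units
  have hunit : ∀ u : Rˣ, ∃ b : E, Algebra.norm M b = algebraMap R M u := by
    intro u
    by_cases hchar : (l : ResidueField R) = 0
    · have hfact : Fact l.Prime := ⟨hl⟩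
      have hCP : CharP (ResidueField R) l := by
        obtain ⟨q, hq⟩ := CharP.exists (ResidueField R)
        have h1 := (CharP.cast_eq_zero_iff (ResidueField R) q l).1 hchar
        rcases (Nat.dvd_prime hl).1 h1 with h2 | h2
        · exfalso
          subst h2
          have := (CharP.cast_eq_zero_iff (ResidueField R) 1 1).2 dvd_rfl
          rw [Nat.cast_one] at this
          exact one_ne_zero this
        · rw [← h2]; exact hq
      obtain ⟨t, ht, htr⟩ := hTRC R M S E l rfl
      let D : Dat R S (E ≃ₐ[M] E) :=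
        { D0 with
          T := Algebra.intTrace R S
          hT := fun s => gal_trace s
          hchar := hchar
          hsub := hsub
          t := t
          ht := ht
          htr := by
            intro m x
            rw [← htr m x]
            refine exists_congr (fun s => and_congr_right (fun _ => ?_))
            rw [← Algebra.algebraMap_intTrace (A := R) (K := M) (L := E) (B := S),
              (IsFractionRing.injective R M).eq_iff]
            exact eq_comm }
      have hν : residue R (u : R) ≠ 0 := (residue_ne_zero_iff_isUnit _).2 u.isUnit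
      obtain ⟨β, hβ⟩ := IsAlgClosed.exists_pow_nat_eq (residue R (u : R)) (n := l) hl.pos
      obtain ⟨w, hw⟩ := residue_surjective β
      have hw0 : IsUnit w := by
        rw [← residue_ne_zero_iff_isUnit, hw]
        intro h0
        rw [h0, zero_pow hl.ne_zero] at hβ
        exact hν hβ.symm
      obtain ⟨w, rfl⟩ := hw0
      have ha : (((u * (w ^ l)⁻¹ : Rˣ) : R)) - 1 ∈ maximalIdeal R := by
        have h1 : (u : R) - (w : R) ^ l ∈ maximalIdeal R := by
          rw [← residue_eq_zero_iff, map_sub, map_pow, hw, hβ, sub_self]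
        have h2 : (((u * (w ^ l)⁻¹ : Rˣ) : R)) - 1 =
            (((w ^ l)⁻¹ : Rˣ) : R) * ((u : R) - (w : R) ^ l) := by
          have h3 : (((w ^ l)⁻¹ : Rˣ) : R) * ((w : R) ^ l) = 1 := by
            have := Units.inv_mul (w ^ l)
            rwa [Units.val_pow_eq_pow_val] at this
          rw [Units.val_mul]
          linear_combination h3
        rw [h2]
        exact Ideal.mul_mem_left _ _ h1
      obtain ⟨s, hs⟩ := surj_one D _ ha
      have hs' : Algebra.intNorm R S s = ((u * (w ^ l)⁻¹ : Rˣ) : R) := hs
      refine ⟨algebraMap M E (algebraMap R M w) * algebraMap S E s, ?_⟩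
      rw [map_mul, Algebra.norm_algebraMap, ← hnorm, hs', ← hldef, ← map_pow, ← map_mul]
      congr 1
      rw [Units.val_mul, mul_comm (u : R), ← mul_assoc]
      have h3 : ((w : R) ^ l) * (((w ^ l)⁻¹ : Rˣ) : R) = 1 := by
        have := Units.mul_inv (w ^ l)
        rwa [Units.val_pow_eq_pow_val] at this
      rw [h3, one_mul]
    · obtain ⟨v, hv⟩ := hDIVU R l u hchar
      refine ⟨algebraMap M E (algebraMap R M v), ?_⟩
      rw [Algebra.norm_algebraMap, ← hldef, ← map_pow, ← hv, Units.val_pow_eq_pow_val]
  -- nonzero elements of `R`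
  have hR : ∀ x : R, x ≠ 0 → ∃ b : E, Algebra.norm M b = algebraMap R M x := by
    obtain ⟨π, hπ⟩ := IsDiscreteValuationRing.exists_irreducible R
    obtain ⟨ϖ, hϖ⟩ := IsDiscreteValuationRing.exists_irreducible S
    obtain ⟨ν, hν⟩ := norm_unif D0 hπ hϖ
    have hν' : Algebra.intNorm R S ϖ = π * ν := hν
    intro x hx
    obtain ⟨v, u, hu⟩ := IsDiscreteValuationRing.eq_unit_mul_pow_irreducible hx hπ
    obtain ⟨b, hb⟩ := hunit (u * (ν ^ v)⁻¹)
    refine ⟨b * algebraMap S E ϖ ^ v, ?_⟩
    rw [map_mul, map_pow, ← hnorm, hν', hb, ← map_pow, ← map_mul, hu]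
    congr 1
    rw [Units.val_mul]
    have h3 : ((ν : R) ^ v) * (((ν ^ v)⁻¹ : Rˣ) : R) = 1 := by
      have := Units.mul_inv (ν ^ v)
      rwa [Units.val_pow_eq_pow_val] at this
    linear_combination ((u : R) * π ^ v) * h3
  intro a
  obtain ⟨x, y, hy, rfl⟩ := IsFractionRing.div_surjective (A := R) a
  by_cases hx : x = 0
  · refine ⟨0, ?_⟩
    rw [Algebra.norm_zero, hx]
    simp
  · obtain ⟨b, hb⟩ := hR x hx
    obtain ⟨c, hc⟩ := hR y (nonZeroDivisors.ne_zero hy)
    refine ⟨b / c, ?_⟩
    have hy0 : algebraMap R M y ≠ 0 := by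
      intro h
      exact nonZeroDivisors.ne_zero hy ((IsFractionRing.injective R M) (by rw [h, map_zero]))
    have hc0 : c ≠ 0 := by
      rintro rfl
      rw [Algebra.norm_zero] at hc
      exact hy0 hc.symm
    rw [eq_div_iff hy0, ← hc, ← map_mul, div_mul_cancel₀ _ hc0, hb]

end Pool.Agent.Helper36.Nm
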