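import Pool.Agent.Helper40.Nm.Goals

/-!
Packet NPRIME of MP_f619a5_ag, first part: the abstract core.
-/

open IsLocalRing Finset

namespace Pool.Agent.Helper36.Nm

section core

variable {R S G : Type} [CommRing R] [IsDomain R] [IsDiscreteValuationRing R]
  [CommRing S] [IsDomain S] [IsDiscreteValuationRing S] [Algebra R S] [Group G] [Fintype G]

omit [IsDomain R] [IsDiscreteValuationRing R] in
lemma map_mem_pow (e : S ≃ₐ[R] S) (n : ℕ) {x : S} (hx : x ∈ maximalIdeal S ^ n) :
    e x ∈ maximalIdeal S ^ n := by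
  have h1 : (e : S →+* S) x ∈ (maximalIdeal S ^ n).map (e : S →+* S) :=
    Ideal.mem_map_of_mem _ hx
  rw [Ideal.map_pow] at h1
  have h2 : (maximalIdeal S).map (e : S →+* S) ≤ maximalIdeal S := by
    rw [Ideal.map_le_iff_le_comap]
    intro y hy
    rw [Ideal.mem_comap]
    rw [mem_maximalIdeal, mem_nonunits_iff] at hy ⊢
    intro h
    apply hy
    have h3 := h.map e.symm
    simpa using h3
  exact Ideal.pow_right_mono h2 n h1

omit [IsDomain R] [IsDiscreteValuationRing R] [Fintype G] in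
lemma prod_mem_pow (σ : G →* (S ≃ₐ[R] S)) (m : ℕ) (x : S) (hx : x ∈ maximalIdeal S ^ m)
    (T : Finset G) (hT : 2 ≤ T.card) : ∏ γ ∈ T, σ γ x ∈ maximalIdeal S ^ (2 * m) := by
  have h1 : ∏ γ ∈ T, σ γ x ∈ ∏ γ ∈ T, maximalIdeal S ^ m :=
    Ideal.prod_mem_prod (fun γ _ => map_mem_pow (σ γ) m hx)
  rw [Finset.prod_const, ← pow_mul] at h1
  refine Ideal.pow_le_pow_right ?_ h1
  rw [mul_comm]
  exact Nat.mul_le_mul_left m hT

omit [IsDomain R] [IsDiscreteValuationRing R] [IsDomain S] [IsDiscreteValuationRing S] in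
lemma sum_trans [DecidableEq G] (σ : G →* (S ≃ₐ[R] S)) (j : ℕ) (x : S) (δ : G) :
    σ δ (∑ T ∈ (powersetCard j (univ : Finset G)).filter (fun T => (1 : G) ∈ T),
      ∏ γ ∈ T, σ γ x) =
    ∑ T ∈ (powersetCard j (univ : Finset G)).filter (fun T => δ ∈ T), ∏ γ ∈ T, σ γ x := by
  rw [map_sum]
  refine Finset.sum_nbij' (fun T => T.map (Equiv.mulLeft δ).toEmbedding)
    (fun T => T.map (Equiv.mulLeft δ⁻¹).toEmbedding) ?_ ?_ ?_ ?_ ?_
  · intro T hT
    simp only [mem_filter, mem_powersetCard, subset_univ, true_and] at hT ⊢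
    refine ⟨by rw [Finset.card_map]; exact hT.1, ?_⟩
    rw [Finset.mem_map]
    exact ⟨1, hT.2, by simp⟩
  · intro T hT
    simp only [mem_filter, mem_powersetCard, subset_univ, true_and] at hT ⊢
    refine ⟨by rw [Finset.card_map]; exact hT.1, ?_⟩
    rw [Finset.mem_map]
    exact ⟨δ, hT.2, by simp⟩
  · intro T _
    rw [Finset.map_map]
    convert Finset.map_refl
    ext y
    simp
  · intro T _
    rw [Finset.map_map]
    convert Finset.map_refl
    ext y
    simp
  · intro T _
    rw [map_prod, Finset.prod_map]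
    refine Finset.prod_congr rfl (fun γ _ => ?_)
    simp [map_mul, AlgEquiv.mul_apply]

omit [IsDomain R] [IsDiscreteValuationRing R] in
/-- the expansion of the norm of `1 + x` -/
lemma norm_one_add (σ : G →* (S ≃ₐ[R] S)) (T : S →ₗ[R] R) (N : S →* R)
    (hT : ∀ s, algebraMap R S (T s) = ∑ γ, σ γ s) (hN : ∀ s, algebraMap R S (N s) = ∏ γ, σ γ s)
    (hinj : Function.Injective (algebraMap R S))
    (p : ℕ) (hp : p.Prime) (hG : Fintype.card G = p)
    (hu : ∀ j : ℕ, 0 < j → j < p → IsUnit (j : R))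
    (m : ℕ) (x : S) (hx : x ∈ maximalIdeal S ^ m) :
    ∃ z ∈ maximalIdeal S ^ (2 * m), N (1 + x) = 1 + T x + N x + T z := by
  classical
  set e : ℕ → S := fun j => ∑ U ∈ powersetCard j (univ : Finset G), ∏ γ ∈ U, σ γ x with he
  have hj : ∀ j ∈ Finset.Ico 2 p, ∃ z ∈ maximalIdeal S ^ (2 * m), e j = algebraMap R S (T z) := by
    intro j hj
    rw [Finset.mem_Ico] at hj
    obtain ⟨u, hu'⟩ := hu j (by omega) hj.2
    set y : S := ∑ U ∈ (powersetCard j (univ : Finset G)).filter (fun U => (1 : G) ∈ U),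
      ∏ γ ∈ U, σ γ x with hy
    have hymem : y ∈ maximalIdeal S ^ (2 * m) := by
      refine Ideal.sum_mem _ (fun U hU => ?_)
      rw [mem_filter, mem_powersetCard] at hU
      exact prod_mem_pow σ m x hx U (by rw [hU.1.2]; exact hj.1)
    refine ⟨(↑u⁻¹ : R) • y, ?_, ?_⟩
    · rw [Algebra.smul_def]
      exact Ideal.mul_mem_left _ _ hymem
    · rw [map_smul, smul_eq_mul, map_mul, hT]
      have h1 : ∑ γ, σ γ y = (j : S) * e j := by
        have h2 : ∀ δ : G, σ δ y =
            ∑ U ∈ powersetCard j (univ : Finset G), if δ ∈ U then ∏ γ ∈ U, σ γ x else 0 := by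
          intro δ
          rw [hy, sum_trans, Finset.sum_filter]
        rw [Finset.sum_congr rfl (fun δ _ => h2 δ), Finset.sum_comm, he, Finset.mul_sum]
        refine Finset.sum_congr rfl (fun U hU => ?_)
        rw [mem_powersetCard] at hU
        rw [← Finset.sum_filter, Finset.sum_const, nsmul_eq_mul]
        congr 2
        rw [← hU.2]
        congr 1
        ext δ
        simp
      rw [h1]
      have h3 : (j : S) = algebraMap R S (u : R) := by
        rw [hu', map_natCast]
      rw [h3, ← mul_assoc, ← map_mul, Units.inv_mul, map_one, one_mul]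
  choose! z hz1 hz2 using hj
  refine ⟨∑ j ∈ Finset.Ico 2 p, z j, Ideal.sum_mem _ (fun j hj => hz1 j hj), ?_⟩
  apply hinj
  rw [hN, map_add (algebraMap R S), map_add (algebraMap R S), map_add (algebraMap R S),
    map_one (algebraMap R S), hT x, hN x]
  have h1 : ∏ γ, σ γ (1 + x) = ∑ j ∈ range (p + 1), e j := by
    have : ∀ γ ∈ (univ : Finset G), σ γ (1 + x) = 1 + σ γ x := by
      intro γ _
      rw [map_add, map_one]
    rw [Finset.prod_congr rfl this, Finset.prod_one_add, Finset.sum_powerset, Finset.card_univ, hG]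
  have h2 : e 0 = 1 := by simp [he]
  have h3 : e 1 = ∑ γ, σ γ x := by
    simp only [he]
    rw [Finset.powersetCard_one]
    simp
  have h4 : e p = ∏ γ, σ γ x := by
    simp only [he]
    have : powersetCard p (univ : Finset G) = {univ} := by
      rw [← hG, ← Finset.card_univ, Finset.powersetCard_self]
    rw [this, Finset.sum_singleton]
  have hp2 := hp.two_le
  have h5 : ∑ j ∈ range (p + 1), e j = e 0 + e 1 + (∑ j ∈ Finset.Ico 2 p, e j) + e p := by
    rw [Finset.sum_range_succ, Finset.range_eq_Ico,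
      ← Finset.sum_Ico_consecutive _ (Nat.zero_le 2) hp2]
    congr 2
    rw [← Finset.range_eq_Ico, Finset.sum_range_succ, Finset.sum_range_one]
  rw [h1, h5, h2, h3, h4, map_sum T, map_sum (algebraMap R S),
    Finset.sum_congr rfl (fun j hj => hz2 j hj)]
  ring

end core

end Pool.Agent.Helper36.Nm
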