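import Pool.Agent.Helper36.Nm.NPrimeA

/-!
Packet NPRIME of MP_f619a5_ag, second part: successive approximation.
-/

open IsLocalRing Finset

namespace Pool.Agent.Helper36.Nm

section core

variable {R S G : Type} [CommRing R] [IsDomain R] [IsDiscreteValuationRing R]
  [CommRing S] [IsDomain S] [IsDiscreteValuationRing S] [Algebra R S] [Group G] [Fintype G]

lemma mem_pow_iff {A : Type} [CommRing A] [IsDomain A] [IsDiscreteValuationRing A] {π : A}
    (hπ : Irreducible π) (n : ℕ) (x : A) : x ∈ maximalIdeal A ^ n ↔ π ^ n ∣ x := by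
  rw [hπ.maximalIdeal_eq, Ideal.span_singleton_pow, Ideal.mem_span_singleton]

omit [IsDomain S] [IsDiscreteValuationRing S] [Algebra R S] [CommRing S] in
lemma cast_isUnit (p : ℕ) (hp : p.Prime) (hchar : (p : ResidueField R) = 0)
    (j : ℕ) (h0 : 0 < j) (hj : j < p) : IsUnit (j : R) := by
  by_contra h
  have h1 : (j : R) ∈ maximalIdeal R := (mem_maximalIdeal _).2 h
  have h2 : (j : ResidueField R) = 0 := by
    have := (residue_eq_zero_iff (j : R)).2 h1
    simpa using this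
  have hcop : Nat.Coprime j p := Nat.Coprime.symm ((Nat.Prime.coprime_iff_not_dvd hp).2
    (fun h => absurd (Nat.le_of_dvd h0 h) (by omega)))
  have h3 : IsCoprime (j : ℤ) (p : ℤ) := Nat.isCoprime_iff_coprime.2 hcop
  obtain ⟨a, b, hab⟩ := h3
  have h4 : ((a * (j : ℤ) + b * (p : ℤ) : ℤ) : ResidueField R) = 1 := by
    rw [hab]; simp
  push_cast at h4
  rw [h2, hchar] at h4
  simp at h4

/-- the data of the packet, norm part -/
structure Dat0 (R S G : Type) [CommRing R] [IsDomain R] [IsDiscreteValuationRing R]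
    [CommRing S] [IsDomain S] [IsDiscreteValuationRing S] [Algebra R S] [Group G] [Fintype G]
    where
  σ : G →* (S ≃ₐ[R] S)
  N : S →* R
  hN : ∀ s, algebraMap R S (N s) = ∏ γ, σ γ s
  hinj : Function.Injective (algebraMap R S)
  p : ℕ
  hp : p.Prime
  hG : Fintype.card G = p
  hmap : (maximalIdeal R).map (algebraMap R S) = maximalIdeal S ^ p

/-- the data of the packet -/
structure Dat (R S G : Type) [CommRing R] [IsDomain R] [IsDiscreteValuationRing R]
    [CommRing S] [IsDomain S] [IsDiscreteValuationRing S] [Algebra R S] [Group G] [Fintype G]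
    extends Dat0 R S G where
  T : S →ₗ[R] R
  hT : ∀ s, algebraMap R S (T s) = ∑ γ, σ γ s
  hchar : (p : ResidueField R) = 0
  hsub : ∀ s : S, ∃ r : R, s - algebraMap R S r ∈ maximalIdeal S
  t : ℕ
  ht : 1 ≤ t
  htr : ∀ (m : ℕ) (x : R), (∃ s ∈ maximalIdeal S ^ m, T s = x) ↔
    x ∈ maximalIdeal R ^ (((p - 1) * (t + 1) + m) / p)

section dat0

variable (D : Dat0 R S G)

lemma map_span {π : R} (hπ : Irreducible π) (j : ℕ) :
    maximalIdeal S ^ (D.p * j) = Ideal.span {algebraMap R S (π ^ j)} := by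
  rw [pow_mul, ← D.hmap, ← Ideal.map_pow, hπ.maximalIdeal_eq, Ideal.span_singleton_pow,
    Ideal.map_span, Set.image_singleton]

include D in
lemma map_nonunit {π : R} (hπ : Irreducible π) : ¬ IsUnit (algebraMap R S π) := by
  have h := map_span D hπ 1
  rw [pow_one, mul_one] at h
  have h1 : algebraMap R S π ∈ maximalIdeal S ^ D.p := by
    rw [h]; exact Ideal.mem_span_singleton_self _
  have h2 : algebraMap R S π ∈ maximalIdeal S := by
    have := Ideal.pow_le_pow_right (I := maximalIdeal S) (D.hp.one_lt.le) h1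
    simpa using this
  exact (mem_maximalIdeal _).1 h2

lemma comap_pow (r : R) (j : ℕ) (h : algebraMap R S r ∈ maximalIdeal S ^ (D.p * j)) :
    r ∈ maximalIdeal R ^ j := by
  obtain ⟨π, hπ⟩ := IsDiscreteValuationRing.exists_irreducible R
  rw [map_span D hπ, Ideal.mem_span_singleton] at h
  rw [mem_pow_iff hπ]
  by_cases hr : r = 0
  · rw [hr]; exact dvd_zero _
  obtain ⟨v, u, hu⟩ := IsDiscreteValuationRing.eq_unit_mul_pow_irreducible hr hπ
  by_contra hcon
  have hv : v < j := by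
    by_contra hv
    push Not at hv
    apply hcon
    rw [hu]
    exact Dvd.dvd.mul_left (pow_dvd_pow _ hv) _
  obtain ⟨s, hs⟩ := h
  obtain ⟨i, rfl⟩ := Nat.exists_eq_add_of_lt hv
  rw [hu, map_mul, map_pow, map_pow] at hs
  have hne : algebraMap R S π ≠ 0 := by
    intro h0
    apply hπ.ne_zero
    apply D.hinj
    rw [h0, map_zero]
  have h1 : algebraMap R S π ^ v * algebraMap R S u =
      algebraMap R S π ^ v * (algebraMap R S π * (algebraMap R S π ^ i * s)) := by
    rw [mul_comm, hs]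
    ring
  have h2 := mul_left_cancel₀ (pow_ne_zero v hne) h1
  have h3 : IsUnit (algebraMap R S (u : R)) := u.isUnit.map _
  rw [h2] at h3
  exact map_nonunit D hπ (isUnit_of_mul_isUnit_left h3)

lemma norm_algebraMap (b : R) : D.N (algebraMap R S b) = b ^ D.p := by
  apply D.hinj
  rw [D.hN]
  simp [D.hG, Finset.card_univ]

lemma norm_unif {π : R} (hπ : Irreducible π) {ϖ : S} (hϖ : Irreducible ϖ) :
    ∃ ν : Rˣ, D.N ϖ = π * ν := by
  have h1 : ∀ γ : G, ∃ w : Sˣ, D.σ γ ϖ = ϖ * w := by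
    intro γ
    have h2 : Irreducible (D.σ γ ϖ) := by
      exact (MulEquiv.irreducible_iff (D.σ γ)).2 hϖ
    obtain ⟨w, hw⟩ := IsDiscreteValuationRing.associated_of_irreducible S hϖ h2
    exact ⟨w, hw.symm⟩
  choose w hw using h1
  have h2 : algebraMap R S (D.N ϖ) = ϖ ^ D.p * ((∏ γ, w γ : Sˣ) : S) := by
    rw [D.hN, Finset.prod_congr rfl (fun γ _ => hw γ), Finset.prod_mul_distrib,
      Finset.prod_const, Finset.card_univ, D.hG, Units.coe_prod]
  have h3 : Associated (ϖ ^ D.p) (algebraMap R S π) := by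
    rw [← Ideal.span_singleton_eq_span_singleton, ← Ideal.span_singleton_pow,
      ← hϖ.maximalIdeal_eq]
    have := map_span D hπ 1
    rwa [mul_one, pow_one] at this
  obtain ⟨w', hw'⟩ := h3
  have h4 : algebraMap R S (D.N ϖ) = algebraMap R S π * ((w'⁻¹ * ∏ γ, w γ : Sˣ) : S) := by
    rw [h2, ← hw', Units.val_mul]
    have : (w' : S) * ((w'⁻¹ : Sˣ) : S) = 1 := Units.mul_inv w'
    linear_combination (-(ϖ ^ D.p) * ((∏ γ, w γ : Sˣ) : S)) * this
  set W := (w'⁻¹ * ∏ γ, w γ : Sˣ) with hW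
  have hne : algebraMap R S π ≠ 0 := by
    intro h0
    apply hπ.ne_zero
    apply D.hinj
    rw [h0, map_zero]
  have hN0 : D.N ϖ ≠ 0 := by
    intro h0
    rw [h0, map_zero] at h4
    exact (mul_ne_zero hne W.ne_zero) h4.symm
  obtain ⟨v, u, hu⟩ := IsDiscreteValuationRing.eq_unit_mul_pow_irreducible hN0 hπ
  rw [hu, map_mul, map_pow] at h4
  rcases v with _ | v
  · exfalso
    have h5 : IsUnit (algebraMap R S (u : R)) := u.isUnit.map _
    rw [pow_zero, mul_one] at h4
    rw [h4] at h5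
    exact map_nonunit D hπ (isUnit_of_mul_isUnit_left h5)
  · rcases v with _ | v
    · refine ⟨u, ?_⟩
      rw [hu]
      ring
    · exfalso
      have h5 : algebraMap R S π * (algebraMap R S π * (algebraMap R S π ^ v * algebraMap R S u)) =
          algebraMap R S π * W := by
        rw [← h4]
        ring
      have h6 := mul_left_cancel₀ hne h5
      have h7 : IsUnit (W : S) := W.isUnit
      rw [← h6] at h7
      exact map_nonunit D hπ (isUnit_of_mul_isUnit_left h7)

end dat0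

variable (D : Dat R S G)

lemma trace_unif {π : R} (hπ : Irreducible π) {ϖ : S} (hϖ : Irreducible ϖ) (m n : ℕ)
    (h1 : ((D.p - 1) * (D.t + 1) + m) / D.p = n)
    (h2 : ((D.p - 1) * (D.t + 1) + (m + 1)) / D.p = n + 1) :
    ∃ α : R, IsUnit α ∧ D.T (ϖ ^ m) = α * π ^ n := by
  have h3 : D.T (ϖ ^ m) ∈ maximalIdeal R ^ n := by
    rw [← h1]
    exact (D.htr m _).1 ⟨ϖ ^ m, (mem_pow_iff hϖ _ _).2 dvd_rfl, rfl⟩
  rw [mem_pow_iff hπ] at h3
  obtain ⟨α, hα⟩ := h3
  refine ⟨α, ?_, by rw [hα]; ring⟩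
  have h4 : π ^ n ∈ maximalIdeal R ^ (((D.p - 1) * (D.t + 1) + m) / D.p) := by
    rw [h1, mem_pow_iff hπ]
  obtain ⟨s, hs, hs'⟩ := (D.htr m _).2 h4
  rw [mem_pow_iff hϖ] at hs
  obtain ⟨y, rfl⟩ := hs
  obtain ⟨r, hr⟩ := D.hsub y
  have h5 : D.T (ϖ ^ m * (y - algebraMap R S r)) ∈ maximalIdeal R ^ (n + 1) := by
    rw [← h2]
    refine (D.htr (m + 1) _).1 ⟨_, ?_, rfl⟩
    rw [pow_succ]
    exact Ideal.mul_mem_mul ((mem_pow_iff hϖ _ _).2 dvd_rfl) hr
  rw [mem_pow_iff hπ] at h5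
  obtain ⟨d, hd⟩ := h5
  have h6 : ϖ ^ m * y = r • ϖ ^ m + ϖ ^ m * (y - algebraMap R S r) := by
    rw [Algebra.smul_def]; ring
  rw [h6, map_add, map_smul, smul_eq_mul, hα, hd] at hs'
  have h7 : π ^ n * (r * α + π * d) = π ^ n * 1 := by
    linear_combination hs'
  have h8 := mul_left_cancel₀ (pow_ne_zero n hπ.ne_zero) h7
  have h9 : IsUnit (r * α) := by
    have : r * α = 1 - π * d := by linear_combination h8
    rw [this]
    by_contra hcon
    have h10 : (1 - π * d) ∈ maximalIdeal R := (mem_maximalIdeal _).2 hcon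
    have h11 : π * d ∈ maximalIdeal R :=
      Ideal.mul_mem_right _ _ ((mem_maximalIdeal _).2 hπ.not_isUnit)
    have h12 : (1 : R) ∈ maximalIdeal R := by
      have := Ideal.add_mem _ h10 h11
      simpa using this
    exact (Ideal.ne_top_iff_one _).1 (Ideal.IsMaximal.ne_top inferInstance) h12
  exact isUnit_of_mul_isUnit_right h9

lemma ar1 (p t n : ℕ) (hp : 2 ≤ p) (h : n < t) : n + 1 ≤ ((p - 1) * (t + 1) + n) / p := by
  rw [Nat.le_div_iff_mul_le (by omega)]
  obtain ⟨q, rfl⟩ : ∃ q, p = q + 2 := ⟨p - 2, by omega⟩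
  obtain ⟨s, rfl⟩ : ∃ s, t = n + 1 + s := ⟨t - n - 1, by omega⟩
  simp only [show q + 2 - 1 = q + 1 by omega]
  nlinarith

lemma ar2 (p t k : ℕ) (hp : 2 ≤ p) :
    ((p - 1) * (t + 1) + (t + p * k)) / p = t + k := by
  obtain ⟨q, rfl⟩ : ∃ q, p = q + 1 := ⟨p - 1, by omega⟩
  have : (q + 1 - 1) * (t + 1) + (t + (q + 1) * k) = q + (q + 1) * (t + k) := by
    simp only [Nat.add_sub_cancel]; ring
  rw [this, Nat.add_mul_div_left _ _ (by omega), Nat.div_eq_of_lt (by omega)]
  omega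

lemma ar3 (p t k : ℕ) (hp : 2 ≤ p) :
    ((p - 1) * (t + 1) + (t + p * k + 1)) / p = t + k + 1 := by
  obtain ⟨q, rfl⟩ : ∃ q, p = q + 1 := ⟨p - 1, by omega⟩
  have : (q + 1 - 1) * (t + 1) + (t + (q + 1) * k + 1) = (q + 1) * (t + k + 1) := by
    simp only [Nat.add_sub_cancel]; ring
  rw [this, Nat.mul_div_cancel_left _ (by omega)]

variable [IsAlgClosed (ResidueField R)]

/-- one step of the successive approximation -/
lemma step {π : R} (hπ : Irreducible π) (n : ℕ) (hn : 1 ≤ n) (c : R) :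
    ∃ x ∈ maximalIdeal S ^ n, D.N (1 + x) - (1 + c * π ^ n) ∈ maximalIdeal R ^ (n + 1) := by
  obtain ⟨ϖ, hϖ⟩ := IsDiscreteValuationRing.exists_irreducible S
  obtain ⟨ν, hν⟩ := norm_unif D.toDat0 hπ hϖ
  have hp2 := D.hp.two_le
  have hkey : ∀ (m : ℕ) (b : R), n ≤ m → n + 1 ≤ ((D.p - 1) * (D.t + 1) + 2 * m) / D.p →
      (b • D.T (ϖ ^ m) + b ^ D.p * (π * ν) ^ m - c * π ^ n ∈ maximalIdeal R ^ (n + 1)) →
      ∃ x ∈ maximalIdeal S ^ n, D.N (1 + x) - (1 + c * π ^ n) ∈ maximalIdeal R ^ (n + 1) := by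
    intro m b hm hc h
    have hx : b • ϖ ^ m ∈ maximalIdeal S ^ m := by
      rw [Algebra.smul_def]
      exact Ideal.mul_mem_left _ _ ((mem_pow_iff hϖ _ _).2 dvd_rfl)
    obtain ⟨z, hz, hz'⟩ := norm_one_add D.σ D.T D.N D.hT D.hN D.hinj D.p D.hp D.hG
      (fun j h0 hj => cast_isUnit D.p D.hp D.hchar j h0 hj) m (b • ϖ ^ m) hx
    refine ⟨b • ϖ ^ m, Ideal.pow_le_pow_right hm hx, ?_⟩
    have h2 : D.T z ∈ maximalIdeal R ^ (n + 1) :=
      Ideal.pow_le_pow_right hc ((D.htr _ _).1 ⟨z, hz, rfl⟩)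
    have h3 : D.N (b • ϖ ^ m) = b ^ D.p * (π * ν) ^ m := by
      rw [Algebra.smul_def, map_mul, norm_algebraMap, map_pow, hν]
    rw [hz', h3, map_smul]
    have : 1 + b • D.T (ϖ ^ m) + b ^ D.p * (π * ↑ν) ^ m + D.T z - (1 + c * π ^ n) =
      (b • D.T (ϖ ^ m) + b ^ D.p * (π * ν) ^ m - c * π ^ n) + D.T z := by ring
    rw [this]
    exact Ideal.add_mem _ h h2
  have hlift : ∀ d : R, d ∈ maximalIdeal R → d * π ^ n ∈ maximalIdeal R ^ (n + 1) := by
    intro d hd
    rw [pow_succ']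
    exact Ideal.mul_mem_mul hd ((mem_pow_iff hπ _ _).2 dvd_rfl)
  rcases lt_trichotomy n D.t with hlt | heq | hgt
  · have hν0 : residue R (ν : R) ≠ 0 := (residue_ne_zero_iff_isUnit _).2 ν.isUnit
    obtain ⟨β, hβ⟩ := IsAlgClosed.exists_pow_nat_eq
      (residue R c * ((residue R (ν : R)) ^ n)⁻¹) (n := D.p) (by omega)
    obtain ⟨b, hb⟩ := residue_surjective β
    refine hkey n b le_rfl ((ar1 D.p D.t n hp2 hlt).trans (Nat.div_le_div_right (by omega))) ?_
    have h1 : b • D.T (ϖ ^ n) ∈ maximalIdeal R ^ (n + 1) := by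
      rw [smul_eq_mul]
      refine Ideal.mul_mem_left _ _ (Ideal.pow_le_pow_right (ar1 D.p D.t n hp2 hlt) ?_)
      exact (D.htr n _).1 ⟨ϖ ^ n, (mem_pow_iff hϖ _ _).2 dvd_rfl, rfl⟩
    have h2 : b ^ D.p * (ν : R) ^ n - c ∈ maximalIdeal R := by
      rw [← residue_eq_zero_iff, map_sub, map_mul, map_pow, map_pow, hb, hβ,
        inv_mul_cancel_right₀ (pow_ne_zero _ hν0), sub_self]
    have h3 : b • D.T (ϖ ^ n) + b ^ D.p * (π * ↑ν) ^ n - c * π ^ n =
        b • D.T (ϖ ^ n) + (b ^ D.p * (ν : R) ^ n - c) * π ^ n := by ring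
    rw [h3]
    exact Ideal.add_mem _ h1 (hlift _ h2)
  · subst heq
    have e1 := ar2 D.p D.t 0 hp2
    have e2 := ar3 D.p D.t 0 hp2
    simp only [mul_zero, add_zero] at e1 e2
    obtain ⟨α, hα, hα'⟩ := trace_unif D hπ hϖ D.t D.t e1 e2
    have hν0 : residue R (ν : R) ≠ 0 := (residue_ne_zero_iff_isUnit _).2 ν.isUnit
    set P : Polynomial (ResidueField R) :=
      Polynomial.C ((residue R (ν : R)) ^ D.t) * Polynomial.X ^ D.p +
        (Polynomial.C (residue R α) * Polynomial.X - Polynomial.C (residue R c)) with hP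
    have hdeg : P.degree ≠ 0 := by
      have h1 : (Polynomial.C (residue R α) * Polynomial.X -
          Polynomial.C (residue R c) : Polynomial (ResidueField R)).degree ≤ 1 := by
        refine (Polynomial.degree_sub_le _ _).trans (max_le ?_ ?_)
        · exact Polynomial.degree_C_mul_X_le _
        · exact Polynomial.degree_C_le.trans (by norm_num)
      have h2 : (Polynomial.C ((residue R (ν : R)) ^ D.t) * Polynomial.X ^ D.p :
          Polynomial (ResidueField R)).degree = D.p := by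
        rw [Polynomial.degree_C_mul_X_pow]
        exact pow_ne_zero _ hν0
      rw [hP, Polynomial.degree_add_eq_left_of_degree_lt, h2]
      · have := D.hp.pos
        exact_mod_cast this.ne'
      · rw [h2]
        refine lt_of_le_of_lt h1 ?_
        exact_mod_cast D.hp.one_lt
    obtain ⟨β, hβ⟩ := IsAlgClosed.exists_root P hdeg
    obtain ⟨b, hb⟩ := residue_surjective β
    refine hkey D.t b le_rfl ?_ ?_
    · have : D.t + 1 ≤ ((D.p - 1) * (D.t + 1) + (D.t + 1)) / D.p := e2.ge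
      refine this.trans (Nat.div_le_div_right ?_)
      have := D.ht
      omega
    · have h2 : b * α + b ^ D.p * (ν : R) ^ D.t - c ∈ maximalIdeal R := by
        rw [← residue_eq_zero_iff]
        simp only [map_sub, map_add, map_mul, map_pow, hb]
        rw [Polynomial.IsRoot.def, hP] at hβ
        simp only [Polynomial.eval_add, Polynomial.eval_mul, Polynomial.eval_C,
          Polynomial.eval_pow, Polynomial.eval_X, Polynomial.eval_sub] at hβ
        linear_combination hβ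
      have h3 : b • D.T (ϖ ^ D.t) + b ^ D.p * (π * ↑ν) ^ D.t - c * π ^ D.t =
          (b * α + b ^ D.p * (ν : R) ^ D.t - c) * π ^ D.t := by
        rw [hα', smul_eq_mul]; ring
      rw [h3]
      exact hlift _ h2
  · obtain ⟨k, rfl⟩ : ∃ k, n = D.t + (k + 1) := ⟨n - D.t - 1, by omega⟩
    have e1 := ar2 D.p D.t (k + 1) hp2
    have e2 := ar3 D.p D.t (k + 1) hp2
    obtain ⟨α, hα, hα'⟩ := trace_unif D hπ hϖ (D.t + D.p * (k + 1)) (D.t + (k + 1)) e1 e2
    have hα0 : residue R α ≠ 0 := (residue_ne_zero_iff_isUnit _).2 hα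
    obtain ⟨b, hb⟩ := residue_surjective (residue R c * (residue R α)⁻¹)
    have hm : D.t + (k + 1) + 1 ≤ D.t + D.p * (k + 1) := by nlinarith
    refine hkey (D.t + D.p * (k + 1)) b (by omega) ?_ ?_
    · refine e2.ge.trans (Nat.div_le_div_right ?_)
      have := D.ht
      omega
    · have h1 : b ^ D.p * (π * ↑ν) ^ (D.t + D.p * (k + 1)) ∈
          maximalIdeal R ^ (D.t + (k + 1) + 1) := by
        rw [mul_pow]
        refine Ideal.mul_mem_left _ _ (Ideal.mul_mem_right _ _ ?_)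
        rw [mem_pow_iff hπ]
        exact pow_dvd_pow _ hm
      have h2 : b * α - c ∈ maximalIdeal R := by
        rw [← residue_eq_zero_iff, map_sub, map_mul, hb, inv_mul_cancel_right₀ hα0, sub_self]
      have h3 : b • D.T (ϖ ^ (D.t + D.p * (k + 1))) +
          b ^ D.p * (π * ↑ν) ^ (D.t + D.p * (k + 1)) - c * π ^ (D.t + (k + 1)) =
          (b * α - c) * π ^ (D.t + (k + 1)) + b ^ D.p * (π * ↑ν) ^ (D.t + D.p * (k + 1)) := by
        rw [hα', smul_eq_mul]; ring
      rw [h3]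
      exact Ideal.add_mem _ (hlift _ h2) h1

end core

end Pool.Agent.Helper36.Nm
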