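import Pool.Agent.Helper36.Nm.NPrimeB

/-!
Packet RAM of MP_f619a5_ag: the ramification estimate.
-/

open IsLocalRing Finset

namespace Pool.Agent.Helper36.Nm

open Pool.Agent.Helper40.Nm

lemma ram_isUnit_of_sub_one {A : Type} [CommRing A] [IsLocalRing A] {x y : A} (hy : IsUnit y)
    (h : x - y ∈ maximalIdeal A) : IsUnit x := by
  by_contra hx
  have h1 : x ∈ maximalIdeal A := (mem_maximalIdeal _).2 hx
  have h2 : y ∈ maximalIdeal A := by
    have := Ideal.sub_mem _ h1 h
    simpa using this
  exact (mem_maximalIdeal _).1 h2 hy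

/-- numerical part -/
lemma ram_num (p n d e' d' : ℕ) (hn : 0 < n) (h : d' * n = e' * d) (hdvd : e' ∣ n)
    (hp : p.Coprime d) (hnd : n ≤ d) : p.Coprime d' ∧ e' ≤ d' := by
  obtain ⟨m, rfl⟩ := hdvd
  have he' : 0 < e' := Nat.pos_of_mul_pos_right hn |> fun _ => by
    rcases Nat.eq_zero_or_pos e' with h0 | h0
    · rw [h0] at hn; simp at hn
    · exact h0
  have hm : 0 < m := by
    rcases Nat.eq_zero_or_pos m with h0 | h0
    · rw [h0] at hn; simp at hn
    · exact h0
  have h1 : d' * m = d := by
    apply Nat.eq_of_mul_eq_mul_left he'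
    rw [← h]; ring
  constructor
  · rw [← h1] at hp
    exact Nat.Coprime.coprime_mul_right_right hp
  · have h2 : e' * m ≤ d' * m := by rw [h1]; exact hnd
    exact Nat.le_of_mul_le_mul_right h2 hm

section core

variable {SL S : Type} [CommRing SL] [IsDomain SL] [IsDiscreteValuationRing SL]
  [CommRing S] [IsDomain S] [IsDiscreteValuationRing S] [Algebra SL S]

/-- a good uniformiser -/
lemma ram_unif (d' : ℕ)
    (hL : (maximalIdeal SL).map (algebraMap SL S) = maximalIdeal S ^ d')
    (hdiv : ∀ u : Sˣ, ∃ v : Sˣ, v ^ d' = u) :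
    ∃ (ϖ : S) (ϖL : SL), Irreducible ϖ ∧ Irreducible ϖL ∧ algebraMap SL S ϖL = ϖ ^ d' := by
  obtain ⟨ϖL, hϖL⟩ := IsDiscreteValuationRing.exists_irreducible SL
  obtain ⟨ϖ0, hϖ0⟩ := IsDiscreteValuationRing.exists_irreducible S
  have h1 : Associated (ϖ0 ^ d') (algebraMap SL S ϖL) := by
    rw [← Ideal.span_singleton_eq_span_singleton, ← Ideal.span_singleton_pow,
      ← hϖ0.maximalIdeal_eq, ← hL, hϖL.maximalIdeal_eq, Ideal.map_span, Set.image_singleton]
  obtain ⟨u, hu⟩ := h1
  obtain ⟨w, hw⟩ := hdiv u
  refine ⟨ϖ0 * w, ϖL, ?_, hϖL, ?_⟩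
  · exact (irreducible_mul_units w).2 hϖ0
  · rw [mul_pow, ← hu, ← hw, Units.val_pow_eq_pow_val]

/-- the estimate -/
lemma ram_core (p : ℕ) (hp : p.Prime) (hchar : (p : ResidueField S) = 0) (d' e' : ℕ)
    (he : e' ≤ d') (hd : p.Coprime d')
    (hL : (maximalIdeal SL).map (algebraMap SL S) = maximalIdeal S ^ d')
    (σ : S ≃+* S) (τ : SL ≃+* SL) (hστ : ∀ x, σ (algebraMap SL S x) = algebraMap SL S (τ x))
    (hσ : ∀ s : S, σ s - s ∈ maximalIdeal S) (k : ℕ) (hk : ∀ s : S, (σ ^ (p ^ k)) s = s)
    (ϖ : S) (ϖL : SL) (hϖ : Irreducible ϖ) (hϖL : Irreducible ϖL)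
    (hϖϖ : algebraMap SL S ϖL = ϖ ^ d') :
    ∃ y ∈ maximalIdeal S ^ e', σ ϖ = ϖ * (1 + y) := by
  have hσϖ : Irreducible (σ ϖ) := (MulEquiv.irreducible_iff σ).2 hϖ
  obtain ⟨ρ, hρ⟩ := IsDiscreteValuationRing.associated_of_irreducible S hϖ hσϖ
  have hτϖ : Irreducible (τ ϖL) := (MulEquiv.irreducible_iff τ).2 hϖL
  obtain ⟨η, hη⟩ := IsDiscreteValuationRing.associated_of_irreducible SL hϖL hτϖ
  -- iterates
  have hit : ∀ i : ℕ, ∀ s : S, (σ ^ i) s - s ∈ maximalIdeal S := by
    intro i
    induction i with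
    | zero => intro s; simp
    | succ i ih =>
      intro s
      have h1 : (σ ^ (i + 1)) s = (σ ^ i) (σ s) := by
        rw [pow_succ]; rfl
      rw [h1]
      have := Ideal.add_mem _ (ih (σ s)) (hσ s)
      rwa [sub_add_sub_cancel] at this
  have hprod : ∀ i : ℕ, (σ ^ i) ϖ = ϖ * ∏ j ∈ range i, (σ ^ j) (ρ : S) := by
    intro i
    induction i with
    | zero => simp
    | succ i ih =>
      have h1 : (σ ^ (i + 1)) ϖ = (σ ^ i) (σ ϖ) := by
        rw [pow_succ]; rfl
      rw [h1, ← hρ, map_mul, ih, Finset.prod_range_succ]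
      ring
  have hres : ∀ i : ℕ, ∀ s : S, residue S ((σ ^ i) s) = residue S s := by
    intro i s
    rw [← sub_eq_zero, ← map_sub, residue_eq_zero_iff]
    exact hit i s
  have hρ1 : (ρ : S) - 1 ∈ maximalIdeal S := by
    have h1 := hprod (p ^ k)
    rw [hk] at h1
    have h2 : ∏ j ∈ range (p ^ k), (σ ^ j) (ρ : S) = 1 := by
      apply mul_left_cancel₀ hϖ.ne_zero
      rw [← h1, mul_one]
    have h3 : (residue S (ρ : S)) ^ (p ^ k) = 1 := by
      have h4 := congrArg (residue S) h2
      rw [map_prod, Finset.prod_congr rfl (fun j _ => hres j ρ), Finset.prod_const,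
        Finset.card_range, map_one] at h4
      exact h4
    have hCP : CharP (ResidueField S) p := by
      obtain ⟨q, hq⟩ := CharP.exists (ResidueField S)
      have h1 := (CharP.cast_eq_zero_iff (ResidueField S) q p).1 hchar
      rcases (Nat.dvd_prime hp).1 h1 with h2 | h2
      · exfalso
        subst h2
        have := (CharP.cast_eq_zero_iff (ResidueField S) 1 1).2 dvd_rfl
        rw [Nat.cast_one] at this
        exact one_ne_zero this
      · rw [← h2]; exact hq
    have hF : Fact p.Prime := ⟨hp⟩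
    have h5 : (residue S (ρ : S) - 1) ^ (p ^ k) = 0 := by
      rw [sub_pow_char_pow, h3, one_pow, sub_self]
    have h6 : residue S (ρ : S) - 1 = 0 := eq_zero_of_pow_eq_zero h5
    rw [← residue_eq_zero_iff, map_sub, map_one]
    exact h6
  -- `ρ ^ d'` is in `SL`
  have hρd : (ρ : S) ^ d' = algebraMap SL S (η : SL) := by
    have h1 : σ (ϖ ^ d') = ϖ ^ d' * algebraMap SL S (η : SL) := by
      rw [← hϖϖ, hστ, ← hη, map_mul]
    rw [map_pow, ← hρ, mul_pow] at h1
    exact mul_left_cancel₀ (pow_ne_zero d' hϖ.ne_zero) h1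
  have hgeom : (∑ i ∈ range d', (ρ : S) ^ i) * ((ρ : S) - 1) = (ρ : S) ^ d' - 1 :=
    geom_sum_mul (ρ : S) d'
  have hη1 : (η : SL) - 1 ∈ maximalIdeal SL := by
    by_contra hcon
    rw [mem_maximalIdeal, mem_nonunits_iff, not_not] at hcon
    have h1 := hcon.map (algebraMap SL S)
    rw [map_sub, map_one, ← hρd, ← hgeom] at h1
    have h2 : (∑ i ∈ range d', (ρ : S) ^ i) * ((ρ : S) - 1) ∈ maximalIdeal S :=
      Ideal.mul_mem_left _ _ hρ1
    exact (mem_maximalIdeal _).1 h2 h1
  have h1 : (ρ : S) ^ d' - 1 ∈ maximalIdeal S ^ d' := by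
    rw [hρd, ← hL, ← map_one (algebraMap SL S), ← map_sub]
    exact Ideal.mem_map_of_mem _ hη1
  have hunit : IsUnit (∑ i ∈ range d', (ρ : S) ^ i) := by
    rw [← residue_ne_zero_iff_isUnit]
    have h2 : residue S (ρ : S) = 1 := by
      rw [← sub_eq_zero, ← map_one (residue S), ← map_sub, residue_eq_zero_iff]
      exact hρ1
    rw [map_sum]
    simp only [map_pow, h2, one_pow, Finset.sum_const, Finset.card_range, nsmul_eq_mul, mul_one]
    intro h3
    have h4 : IsCoprime (p : ℤ) (d' : ℤ) := Nat.isCoprime_iff_coprime.2 hd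
    obtain ⟨a, b, hab⟩ := h4
    have h5 : ((a * (p : ℤ) + b * (d' : ℤ) : ℤ) : ResidueField S) = 1 := by
      rw [hab]; simp
    push_cast at h5
    rw [h3, hchar] at h5
    simp at h5
  refine ⟨(ρ : S) - 1, ?_, ?_⟩
  · refine Ideal.pow_le_pow_right he ?_
    rw [← hgeom] at h1
    obtain ⟨u, hu⟩ := hunit
    rw [← hu] at h1
    have h2 := Ideal.mul_mem_left _ ((u⁻¹ : Sˣ) : S) h1
    rwa [← mul_assoc, Units.inv_mul, one_mul] at h2
  · rw [← hρ]; ring

end core

/-- the restriction of automorphisms -/
lemma res_dvd (K L M E : Type) [Field K]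
    [Field L] [Algebra K L] [FiniteDimensional K L] [IsGalois K L]
    [Field M] [Algebra K M] [Field E] [Algebra K E] [Algebra L E] [Algebra M E]
    [IsScalarTower K L E] [IsScalarTower K M E]
    [FiniteDimensional M E] [IsGalois M E]
    (hadj : IntermediateField.adjoin M (Set.range (algebraMap L E)) = ⊤) :
    Module.finrank M E ∣ Module.finrank K L := by
  rw [← IsGalois.card_aut_eq_finrank, ← IsGalois.card_aut_eq_finrank]
  apply Subgroup.card_dvd_of_injective
    ((AlgEquiv.restrictNormalHom L).comp (AlgEquiv.restrictScalarsHom K) :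
      (E ≃ₐ[M] E) →* (L ≃ₐ[K] L))
  rw [injective_iff_map_eq_one]
  intro γ hγ
  have h1 : ∀ x : L, γ (algebraMap L E x) = algebraMap L E x := by
    intro x
    have h2 := AlgEquiv.restrictNormal_commutes (γ.restrictScalars K) L x
    have h3 : (γ.restrictScalars K).restrictNormal L = 1 := hγ
    rw [h3] at h2
    exact h2.symm
  have h2 : (⊤ : IntermediateField M E) ≤
      IntermediateField.fixedField (Subgroup.zpowers γ) := by
    rw [← hadj, IntermediateField.adjoin_le_iff]
    rintro _ ⟨x, rfl⟩
    rw [SetLike.mem_coe, IntermediateField.mem_fixedField_iff]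
    intro f hf
    obtain ⟨n, rfl⟩ := Subgroup.mem_zpowers_iff.1 hf
    have h4 : γ ∈ MulAction.stabilizer (E ≃ₐ[M] E) (algebraMap L E x) := h1 x
    exact Subgroup.zpow_mem _ h4 n
  ext x
  have h3 := h2 (IntermediateField.mem_top (x := x))
  rw [IntermediateField.mem_fixedField_iff] at h3
  exact h3 γ (Subgroup.mem_zpowers γ)

section assembly

variable (O K L R M S E : Type) [CommRing O] [IsDomain O] [IsDiscreteValuationRing O]
    [IsAdicComplete (IsLocalRing.maximalIdeal O) O] [IsAlgClosed (IsLocalRing.ResidueField O)]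
    [Field K] [Algebra O K] [IsFractionRing O K]
    [Field L] [Algebra K L] [FiniteDimensional K L] [IsGalois K L]
    [Field M] [Algebra K M] [FiniteDimensional K M] [Algebra.IsSeparable K M]
    [Algebra O M] [IsScalarTower O K M]
    [Field E] [Algebra K E] [Algebra L E] [Algebra M E] [Algebra O E]
    [IsScalarTower K L E] [IsScalarTower K M E] [IsScalarTower O K E]
    [FiniteDimensional M E] [IsGalois M E]
    [CommRing R] [IsDomain R] [IsDiscreteValuationRing R] [Algebra O R] [Algebra R M]
    [IsScalarTower O R M] [IsIntegralClosure R O M]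
    [CommRing S] [IsDomain S] [IsDiscreteValuationRing S] [Algebra R S] [Algebra S E]
    [Algebra R E] [IsScalarTower R S E] [IsScalarTower R M E] [IsIntegralClosure S R E]

lemma ram_aux (hEXT : EXT) (hDIVU : DIVU) (p : ℕ) (hp : p.Prime)
    (hchar : (p : ResidueField O) = 0)
    (hadj : IntermediateField.adjoin M (Set.range (algebraMap L E)) = ⊤)
    (hcop : p.Coprime (Module.finrank K M))
    (hle : Module.finrank K L ≤ Module.finrank K M) :
    ∃ ϖ : S, Irreducible ϖ ∧ RamProp p R M S E ϖ := by
  -- `M / K`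
  obtain ⟨hfrR, hfinR, hfreeR, hdvrR, hcompR, hacR, hlocR, hsubR, hmapR⟩ := hEXT O K R M
  -- `E / M`
  obtain ⟨hfrS, hfinS, hfreeS, hdvrS, hcompS, hacS, hlocS, hsubS, hmapS⟩ := hEXT R M S E
  -- `L / K`
  let _ : Algebra O L := ((algebraMap K L).comp (algebraMap O K)).toAlgebra
  have _ : IsScalarTower O K L := IsScalarTower.of_algebraMap_eq (fun _ => rfl)
  have hOE : ∀ x : O, algebraMap O E x = algebraMap L E (algebraMap O L x) := by
    intro x
    rw [IsScalarTower.algebraMap_apply O K E, IsScalarTower.algebraMap_apply K L E]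
    rfl
  obtain ⟨hfrL, hfinL, hfreeL, hdvrL, hcompL, hacL, hlocL, hsubL, hmapL⟩ :=
    hEXT O K (integralClosure O L) L
  set SL := integralClosure O L with hSL
  have _ : IsScalarTower O L E := IsScalarTower.of_algebraMap_eq hOE
  let _ : Algebra O S := ((algebraMap R S).comp (algebraMap O R)).toAlgebra
  have _ : IsScalarTower O R S := IsScalarTower.of_algebraMap_eq (fun _ => rfl)
  have hOSE : ∀ x : O, algebraMap O E x = algebraMap S E (algebraMap O S x) := by
    intro x
    have h1 : algebraMap O S x = algebraMap R S (algebraMap O R x) := rfl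
    rw [h1, ← IsScalarTower.algebraMap_apply R S E, IsScalarTower.algebraMap_apply R M E,
      ← IsScalarTower.algebraMap_apply O R M, IsScalarTower.algebraMap_apply O K M,
      ← IsScalarTower.algebraMap_apply K M E, ← IsScalarTower.algebraMap_apply O K E]
  have _ : IsScalarTower O S E := IsScalarTower.of_algebraMap_eq hOSE
  have hORE : ∀ x : O, algebraMap O E x = algebraMap R E (algebraMap O R x) := by
    intro x
    rw [hOSE]
    have h1 : algebraMap O S x = algebraMap R S (algebraMap O R x) := rfl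
    rw [h1, ← IsScalarTower.algebraMap_apply R S E]
  have _ : IsScalarTower O R E := IsScalarTower.of_algebraMap_eq hORE
  have hintR : Algebra.IsIntegral O R := IsIntegralClosure.isIntegral_algebra O M
  have hintS : Algebra.IsIntegral R S := IsIntegralClosure.isIntegral_algebra R E
  have hintOS : Algebra.IsIntegral O S := Algebra.IsIntegral.trans R
  have hICO : IsIntegralClosure S O E :=
    { algebraMap_injective := IsIntegralClosure.algebraMap_injective S R E
      isIntegral_iff := by
        intro x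
        constructor
        · intro hx
          exact (IsIntegralClosure.isIntegral_iff (R := R)).1 hx.tower_top
        · rintro ⟨y, rfl⟩
          exact (Algebra.IsIntegral.isIntegral (R := O) y).algebraMap }
  have _ : IsScalarTower SL L E := inferInstance
  have hSLLE : ∀ y : SL, algebraMap SL E y = algebraMap L E (algebraMap SL L y) := fun _ => rfl
  have _ : IsScalarTower O SL E := IsScalarTower.of_algebraMap_eq (fun x => hOE x)
  have hintSL : Algebra.IsIntegral O SL := IsIntegralClosure.isIntegral_algebra O L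
  let _ : Algebra SL S := (IsIntegralClosure.lift O S E : SL →ₐ[O] S).toRingHom.toAlgebra
  have hSLSE : ∀ x : SL, algebraMap SL E x = algebraMap S E (algebraMap SL S x) := by
    intro x
    exact (IsIntegralClosure.algebraMap_lift O S E x).symm
  have _ : IsScalarTower SL S E := IsScalarTower.of_algebraMap_eq hSLSE
  have _ : IsIntegralClosure S SL E := IsIntegralClosure.tower_top (R := O)
  have _ : FiniteDimensional K E := Module.Finite.trans M E
  have _ : FiniteDimensional L E := Module.Finite.of_restrictScalars_finite K L E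
  have _ : Algebra.IsSeparable K E := Algebra.IsSeparable.trans K M E
  have _ : Algebra.IsSeparable L E := Algebra.isSeparable_tower_top_of_isSeparable K L E
  obtain ⟨_, _, _, _, _, _, _, _, hmapE⟩ := hEXT SL L S E
  -- the numbers
  obtain ⟨hcop', hle'⟩ := ram_num p (Module.finrank K L) (Module.finrank K M)
    (Module.finrank M E) (Module.finrank L E) Module.finrank_pos (by
      rw [mul_comm, Module.finrank_mul_finrank K L E, mul_comm, Module.finrank_mul_finrank K M E])
    (res_dvd K L M E hadj) hcop hle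
  have hcharS : (p : ResidueField S) = 0 := by
    have h1 : (p : O) ∈ maximalIdeal O := by
      rw [← residue_eq_zero_iff, map_natCast]; exact hchar
    have h2 : algebraMap O S (p : O) ∈ maximalIdeal S := by
      have h3 : algebraMap O R (p : O) ∈ maximalIdeal R := by
        rw [mem_maximalIdeal, mem_nonunits_iff] at h1 ⊢
        intro h4
        exact h1 ((isUnit_map_iff (algebraMap O R) _).1 h4)
      have h4 : algebraMap R S (algebraMap O R (p : O)) ∈ maximalIdeal S := by
        rw [mem_maximalIdeal, mem_nonunits_iff] at h3 ⊢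
        intro h5
        exact h3 ((isUnit_map_iff (algebraMap R S) _).1 h5)
      exact h4
    rw [map_natCast, ← residue_eq_zero_iff, map_natCast] at h2
    exact h2
  have hd0 : ((Module.finrank L E : ℕ) : ResidueField S) ≠ 0 := by
    intro h3
    have h4 : IsCoprime (p : ℤ) ((Module.finrank L E : ℕ) : ℤ) :=
      Nat.isCoprime_iff_coprime.2 hcop'
    obtain ⟨a, b, hab⟩ := h4
    have h5 : ((a * (p : ℤ) + b * ((Module.finrank L E : ℕ) : ℤ) : ℤ) : ResidueField S) = 1 := by
      rw [hab]; simp
    push_cast at h5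
    rw [h3, hcharS] at h5
    simp at h5
  obtain ⟨ϖ, ϖL, hϖ, hϖL, hϖϖ⟩ := ram_unif (SL := SL) (S := S) (Module.finrank L E) hmapE
    (fun u => hDIVU S (Module.finrank L E) u hd0)
  refine ⟨ϖ, hϖ, ?_⟩
  intro γ k π hγ hπ
  -- the automorphisms
  have hcomm : ∀ x : SL, galRestrict R M E S γ (algebraMap SL S x) =
      algebraMap SL S (galRestrict O K L SL
        ((γ.restrictScalars K).restrictNormal L) x) := by
    intro x
    apply IsIntegralClosure.algebraMap_injective S R E
    rw [algebraMap_galRestrict_apply, ← hSLSE, ← hSLSE]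
    rw [hSLLE, hSLLE, algebraMap_galRestrict_apply, AlgEquiv.restrictNormal_commutes]
    rfl
  obtain ⟨y, hy, hy'⟩ := ram_core (SL := SL) (S := S) p hp hcharS (Module.finrank L E)
    (Module.finrank M E) hle' hcop' hmapE (galRestrict R M E S γ).toRingEquiv
    (galRestrict O K L SL ((γ.restrictScalars K).restrictNormal L)).toRingEquiv hcomm (by
      intro s
      obtain ⟨r, hr⟩ := hsubS s
      have h1 : galRestrict R M E S γ (s - algebraMap R S r) ∈ maximalIdeal S ^ 1 :=
        map_mem_pow _ 1 (by rwa [pow_one])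
      rw [pow_one, map_sub, AlgEquiv.commutes] at h1
      have h2 := Ideal.sub_mem _ h1 hr
      rw [sub_sub_sub_cancel_right] at h2
      exact h2) k (by
      intro s
      have h1 : ∀ i : ℕ, (((galRestrict R M E S γ).toRingEquiv : S ≃+* S) ^ i) s =
          galRestrict R M E S (γ ^ i) s := by
        intro i
        induction i generalizing s with
        | zero => simp
        | succ i ih =>
          rw [pow_succ, pow_succ, map_mul]
          exact ih _
      rw [h1, hγ, map_one]
      rfl) ϖ ϖL hϖ hϖL hϖϖ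
  have h1 : y ∈ Ideal.span {algebraMap R S π} := by
    rw [← Set.image_singleton, ← Ideal.map_span, ← hπ.maximalIdeal_eq, hmapS]
    exact hy
  rw [Ideal.mem_span_singleton] at h1
  obtain ⟨s, rfl⟩ := h1
  refine ⟨s, ?_⟩
  rw [← algebraMap_galRestrict_apply R γ ϖ]
  congr 1

end assembly

/-- Packet RAM. -/
theorem ram : EXT → DIVU → RAM := by
  intro hEXT hDIVU O K L R M S E
  intros
  rename_i hadj hcop hle
  have hexp : ExpChar (ResidueField O) (ringExpChar (ResidueField O)) := ringExpChar.expChar _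
  generalize ringExpChar (ResidueField O) = p at hexp hcop ⊢
  rcases hexp with _ | ⟨hp⟩
  · obtain ⟨ϖ, hϖ⟩ := IsDiscreteValuationRing.exists_irreducible S
    refine ⟨ϖ, hϖ, ?_⟩
    intro γ k π hγ _
    refine ⟨0, ?_⟩
    rw [one_pow, pow_one] at hγ
    rw [hγ, mul_zero, add_zero, mul_one]
    rfl
  · exact ram_aux O K L R M S E hEXT hDIVU p hp (CharP.cast_eq_zero _ _) hadj hcop hle

end Pool.Agent.Helper36.Nm
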